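import Mathlib

/-!
# Three positive `n`-th powers whose sum is an `n`-th power, `n = 2 ^ m * r`

Let `m ≥ 1`, `r` odd, all maximal prime powers dividing `r` congruent to `1` modulo
`2 ^ (m + 1)`, and `n = 2 ^ m * r ≥ 4`. If `x ^ n + y ^ n + z ^ n = w ^ n` with positive integers
then `w > 2 ^ ((m + 1) * (n - 1))`.
-/

namespace Pool.Agent.Helper3.TT

/-- An odd prime divisor of `a ^ n + b ^ n` that does not divide `b` is `1` modulo
`2 ^ (m + 1)`. -/
private theorem prime_mod {m r q a b : ℕ} (hq : q.Prime) (hq2 : q ≠ 2) (_hr : Odd r)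
    (h : q ∣ a ^ (2 ^ m * r) + b ^ (2 ^ m * r)) (hb : ¬ q ∣ b) : q % 2 ^ (m + 1) = 1 := by
  have : Fact q.Prime := ⟨hq⟩
  have hb0 : (b : ZMod q) ≠ 0 := by
    rwa [Ne, ZMod.natCast_eq_zero_iff]
  have h1 : ((a : ZMod q)) ^ (2 ^ m * r) + (b : ZMod q) ^ (2 ^ m * r) = 0 := by
    have := (ZMod.natCast_eq_zero_iff (a ^ (2 ^ m * r) + b ^ (2 ^ m * r)) q).mpr h
    exact_mod_cast this
  set u : ZMod q := ((a : ZMod q) / b) ^ r with hu
  have h2 : u ^ 2 ^ m = -1 := by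
    rw [hu, ← pow_mul, mul_comm r, div_pow, div_eq_iff (pow_ne_zero _ hb0)]
    linear_combination h1
  have : Fact (2 < q) := ⟨lt_of_le_of_ne hq.two_le (Ne.symm hq2)⟩
  have hne : (-1 : ZMod q) ≠ 1 := ZMod.neg_one_ne_one
  have h3 : orderOf u = 2 ^ (m + 1) := by
    have : Fact (Nat.Prime 2) := ⟨Nat.prime_two⟩
    refine orderOf_eq_prime_pow ?_ ?_
    · rw [h2]
      exact hne
    · rw [pow_succ, pow_mul, h2]
      norm_num
  have hu0 : u ≠ 0 := by
    intro h0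
    rw [h0, zero_pow (pow_ne_zero _ two_ne_zero)] at h2
    have : (1 : ZMod q) = 0 := by
      linear_combination h2
    exact one_ne_zero this
  have h4 := ZMod.orderOf_dvd_card_sub_one hu0
  rw [h3] at h4
  obtain ⟨t, ht⟩ := h4
  have h5 : q = 2 ^ (m + 1) * t + 1 := by
    have := hq.one_lt
    omega
  have h6 : 1 < 2 ^ (m + 1) := Nat.one_lt_two_pow (Nat.succ_ne_zero m)
  rw [h5, Nat.mul_add_mod, Nat.mod_eq_of_lt h6]

/-- The exponent of a bad prime in `a ^ n + b ^ n` is a multiple of `n`. -/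
private theorem dvd_val {m r q : ℕ} (hq : q.Prime) (hq2 : q ≠ 2) (hr : Odd r)
    (hbad : q % 2 ^ (m + 1) ≠ 1) : ∀ a b : ℕ, 0 < a → 0 < b →
    2 ^ m * r ∣ padicValNat q (a ^ (2 ^ m * r) + b ^ (2 ^ m * r)) := by
  have : Fact q.Prime := ⟨hq⟩
  intro a
  induction a using Nat.strong_induction_on with
  | _ a ih =>
    intro b ha hb
    by_cases hd : q ∣ a ^ (2 ^ m * r) + b ^ (2 ^ m * r)
    · have hqb : q ∣ b := by
        by_contra hb'
        exact hbad (prime_mod hq hq2 hr hd hb')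
      have hqa : q ∣ a := by
        by_contra ha'
        rw [add_comm] at hd
        exact hbad (prime_mod hq hq2 hr hd ha')
      obtain ⟨a', rfl⟩ := hqa
      obtain ⟨b', rfl⟩ := hqb
      have ha' : 0 < a' := Nat.pos_of_mul_pos_left ha
      have hb' : 0 < b' := Nat.pos_of_mul_pos_left hb
      have hlt : a' < q * a' := by
        have := hq.one_lt
        nlinarith
      have h1 := ih a' hlt b' ha' hb'
      have h2 : (q * a') ^ (2 ^ m * r) + (q * b') ^ (2 ^ m * r) =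
          q ^ (2 ^ m * r) * (a' ^ (2 ^ m * r) + b' ^ (2 ^ m * r)) := by
        rw [mul_pow, mul_pow, mul_add]
      rw [h2, padicValNat.mul (pow_ne_zero _ hq.ne_zero) (by positivity), padicValNat.prime_pow]
      exact dvd_add dvd_rfl h1
    · rw [padicValNat.eq_zero_of_not_dvd hd]
      exact dvd_zero _

/-- Odd primes to the power `n * t` are `1` modulo `2 ^ (m + 1)`. -/
private theorem pow_one {m r q t : ℕ} (hq : q.Prime) (hq2 : q ≠ 2) :
    (q : ZMod (2 ^ (m + 1))) ^ (2 ^ m * r * t) = 1 := by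
  have hcop : q.Coprime (2 ^ (m + 1)) := by
    refine Nat.Coprime.pow_right _ ?_
    exact (Nat.coprime_primes hq Nat.prime_two).mpr hq2
  have h3 := Nat.ModEq.pow_totient hcop
  rw [Nat.totient_prime_pow Nat.prime_two (Nat.succ_pos m)] at h3
  have h4 : (q : ZMod (2 ^ (m + 1))) ^ (2 ^ m) = 1 := by
    have h5 := (ZMod.natCast_eq_natCast_iff _ _ _).mpr h3
    simpa using h5
  rw [mul_assoc, pow_mul, h4, one_pow]

/-- An odd number in which all odd primes have exponents `v` with `q ^ v = 1` modulo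
`2 ^ (m + 1)` is `1` modulo `2 ^ (m + 1)`. -/
private theorem mod_one {m D : ℕ} (hD : 0 < D) (hodd : ¬ 2 ∣ D)
    (h : ∀ q : ℕ, q.Prime → q ≠ 2 → (q : ZMod (2 ^ (m + 1))) ^ padicValNat q D = 1) :
    (D : ZMod (2 ^ (m + 1))) = 1 := by
  have h1 := Nat.prod_factorization_pow_eq_self hD.ne'
  rw [← h1, Finsupp.prod, Nat.cast_prod]
  refine Finset.prod_eq_one fun q hq => ?_
  have hqp : q.Prime := Nat.prime_of_mem_primeFactors (by
    rwa [Nat.support_factorization] at hq)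
  have hqd : q ∣ D := Nat.dvd_of_mem_primeFactors (by
    rwa [Nat.support_factorization] at hq)
  have hq2 : q ≠ 2 := by
    rintro rfl
    exact hodd hqd
  rw [Nat.cast_pow, Nat.factorization_def _ hqp]
  exact h q hqp hq2

/-- The odd primes in `w - y` and `w + y`. -/
private theorem val_factor {m r q x y z w : ℕ} (hm : 1 ≤ m) (hr : Odd r)
    (hrq : ∀ q : ℕ, q.Prime → q ∣ r → (q : ZMod (2 ^ (m + 1))) ^ padicValNat q r = 1)
    (hx : 0 < x) (hy : 0 < y) (hz : 0 < z)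
    (hyw : y < w) (hcop : ∀ p, p.Prime → p ∣ x → p ∣ y → p ∣ z → p ∣ w → False)
    (h : w ^ (2 ^ m * r) - y ^ (2 ^ m * r) = x ^ (2 ^ m * r) + z ^ (2 ^ m * r))
    (hq : q.Prime) (hq2 : q ≠ 2) :
    (q : ZMod (2 ^ (m + 1))) ^ padicValNat q (w - y) = 1 ∧
      (q : ZMod (2 ^ (m + 1))) ^ padicValNat q (w + y) = 1 := by
  by_cases hgood : q % 2 ^ (m + 1) = 1
  · have h6 : 1 < 2 ^ (m + 1) := Nat.one_lt_two_pow (Nat.succ_ne_zero m)
    have h2 : (q : ZMod (2 ^ (m + 1))) = ((1 : ℕ) : ZMod (2 ^ (m + 1))) := by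
      rw [ZMod.natCast_eq_natCast_iff]
      unfold Nat.ModEq
      rw [hgood, Nat.mod_eq_of_lt h6]
    rw [h2, Nat.cast_one, one_pow, one_pow]
    exact ⟨rfl, rfl⟩
  have : Fact q.Prime := ⟨hq⟩
  have hr0 : 0 < r := hr.pos
  obtain ⟨m', rfl⟩ : ∃ m', m = m' + 1 := ⟨m - 1, by omega⟩
  by_cases hd : q ∣ w ^ 2 - y ^ 2
  · -- `q` divides `w² - y²`
    have hw2 : w ^ (2 ^ (m' + 1) * r) = (w ^ 2) ^ (2 ^ m' * r) := by
      rw [← pow_mul]
      congr 1
      ring
    have hy2 : y ^ (2 ^ (m' + 1) * r) = (y ^ 2) ^ (2 ^ m' * r) := by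
      rw [← pow_mul]
      congr 1
      ring
    have hd1 : q ∣ w ^ (2 ^ (m' + 1) * r) - y ^ (2 ^ (m' + 1) * r) := by
      rw [hw2, hy2]
      exact hd.trans (Nat.sub_dvd_pow_sub_pow _ _ _)
    rw [h] at hd1
    have hqz : q ∣ z := by
      by_contra hz'
      exact hgood (prime_mod hq hq2 hr hd1 hz')
    have hqx : q ∣ x := by
      by_contra hx'
      rw [add_comm] at hd1
      exact hgood (prime_mod hq hq2 hr hd1 hx')
    have hle : y ^ 2 ≤ w ^ 2 := Nat.pow_le_pow_left hyw.le 2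
    have hqw : ¬ q ∣ w := by
      intro hqw
      have h1 : q ∣ w ^ 2 := hqw.trans (dvd_pow_self w two_ne_zero)
      have h2 : q ∣ y ^ 2 := by
        have := Nat.dvd_sub h1 hd
        rwa [Nat.sub_sub_self hle] at this
      exact hcop q hq hqx (hq.dvd_of_dvd_pow h2) hqz hqw
    have hqw2 : ¬ q ∣ w ^ 2 := fun h' => hqw (hq.dvd_of_dvd_pow h')
    have hn0 : 2 ^ m' * r ≠ 0 := by positivity
    have hlt : y ^ 2 < w ^ 2 := Nat.pow_lt_pow_left hyw two_ne_zero
    have h3 := padicValNat.pow_sub_pow (hq.odd_of_ne_two hq2) hlt hd hqw2 hn0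
    rw [← hw2, ← hy2, h] at h3
    have h4 : padicValNat q (2 ^ m' * r) = padicValNat q r := by
      have h5 : padicValNat q (2 ^ m') = 0 := by
        refine padicValNat.eq_zero_of_not_dvd fun h5 => ?_
        exact hq2 ((Nat.prime_dvd_prime_iff_eq hq Nat.prime_two).mp (hq.dvd_of_dvd_pow h5))
      rw [padicValNat.mul (by positivity) hr0.ne', h5, zero_add]
    rw [h4] at h3
    have h5 : w ^ 2 - y ^ 2 = (w + y) * (w - y) := Nat.sq_sub_sq w y
    have h6 : 0 < w - y := by omega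
    rw [h5, padicValNat.mul (by omega) h6.ne'] at h3
    obtain ⟨t, ht⟩ := dvd_val (m := m' + 1) hq hq2 hr hgood x z hx hz
    rw [h3] at ht
    have hqr : (q : ZMod (2 ^ (m' + 1 + 1))) ^ padicValNat q r = 1 := by
      by_cases h7 : q ∣ r
      · exact hrq q hq h7
      · rw [padicValNat.eq_zero_of_not_dvd h7, pow_zero]
    have hprod : (q : ZMod (2 ^ (m' + 1 + 1))) ^ padicValNat q (w + y) *
        (q : ZMod (2 ^ (m' + 1 + 1))) ^ padicValNat q (w - y) = 1 := by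
      have h8 := pow_one (m := m' + 1) (r := r) (t := t) hq hq2
      rw [← ht, pow_add (q : ZMod (2 ^ (m' + 1 + 1))), pow_add (q : ZMod (2 ^ (m' + 1 + 1))),
        hqr, mul_one] at h8
      exact h8
    -- only one of the two factors is divisible by `q`
    by_cases h8 : q ∣ w + y
    · have h9 : ¬ q ∣ w - y := by
        intro h9
        have h10 : q ∣ 2 * w := by
          have := dvd_add h8 h9
          have e : w + y + (w - y) = 2 * w := by omega
          rwa [e] at this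
        rcases hq.dvd_mul.mp h10 with h11 | h11
        · exact hq2 ((Nat.prime_dvd_prime_iff_eq hq Nat.prime_two).mp h11)
        · exact hqw h11
      rw [padicValNat.eq_zero_of_not_dvd h9, pow_zero, mul_one] at hprod
      rw [padicValNat.eq_zero_of_not_dvd h9, pow_zero]
      exact ⟨rfl, hprod⟩
    · rw [padicValNat.eq_zero_of_not_dvd h8, pow_zero, one_mul] at hprod
      rw [padicValNat.eq_zero_of_not_dvd h8, pow_zero]
      exact ⟨hprod, rfl⟩
  · have h5 : w ^ 2 - y ^ 2 = (w + y) * (w - y) := Nat.sq_sub_sq w y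
    rw [h5] at hd
    have h6 : ¬ q ∣ w + y := fun h' => hd (h'.mul_right _)
    have h7 : ¬ q ∣ w - y := fun h' => hd (h'.mul_left _)
    rw [padicValNat.eq_zero_of_not_dvd h6, padicValNat.eq_zero_of_not_dvd h7, pow_zero]
    exact ⟨rfl, rfl⟩

private theorem dvd_of_two {m r x y z w : ℕ} (hm : 1 ≤ m) (hr : Odd r)
    (hrq : ∀ q : ℕ, q.Prime → q ∣ r → (q : ZMod (2 ^ (m + 1))) ^ padicValNat q r = 1)
    (hx : 0 < x) (hy : 0 < y) (hz : 0 < z)
    (hyw : y < w) (hcop : ∀ p, p.Prime → p ∣ x → p ∣ y → p ∣ z → p ∣ w → False)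
    (h : w ^ (2 ^ m * r) - y ^ (2 ^ m * r) = x ^ (2 ^ m * r) + z ^ (2 ^ m * r))
    (hwo : ¬ 2 ∣ w) (hye : 2 ∣ y) :
    (w : ZMod (2 ^ (m + 1))) - y = 1 ∧ (w : ZMod (2 ^ (m + 1))) + y = 1 := by
  have h1 := mod_one (m := m) (D := w - y) (by omega) (by omega) fun q hq hq2 =>
    (val_factor hm hr hrq hx hy hz hyw hcop h hq hq2).1
  have h2 := mod_one (m := m) (D := w + y) (by omega) (by omega) fun q hq hq2 =>
    (val_factor hm hr hrq hx hy hz hyw hcop h hq hq2).2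
  rw [Nat.cast_sub hyw.le] at h1
  rw [Nat.cast_add] at h2
  exact ⟨h1, h2⟩

private theorem half_dvd {m w y : ℕ} (h : (w : ZMod (2 ^ (m + 1))) - y = 1 ∧
    (w : ZMod (2 ^ (m + 1))) + y = 1) : 2 ^ m ∣ y := by
  have h1 : ((2 * y : ℕ) : ZMod (2 ^ (m + 1))) = 0 := by
    push_cast
    linear_combination h.2 - h.1
  rw [ZMod.natCast_eq_zero_iff, pow_succ, mul_comm (2 ^ m)] at h1
  exact Nat.dvd_of_mul_dvd_mul_left two_pos h1

private theorem core {m r y z w E F : ℕ} (hm : 1 ≤ m) (hn : 4 ≤ 2 ^ m * r)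
    (hy : 0 < y) (hz : 0 < z)
    (h1 : (w : ZMod (2 ^ (m + 1))) - y = 1 ∧ (w : ZMod (2 ^ (m + 1))) + y = 1)
    (h2 : (w : ZMod (2 ^ (m + 1))) - z = 1 ∧ (w : ZMod (2 ^ (m + 1))) + z = 1)
    (hEF : E + F = 2 * w) (hE0 : 0 < E) (hF0 : 0 < F) (hE : padicValNat 2 E = 1)
    (hsum : padicValNat 2 (y ^ (2 ^ m * r) + z ^ (2 ^ m * r)) + 1 =
      padicValNat 2 E + padicValNat 2 F + m)
    (hbad : ∀ q : ℕ, q.Prime → q ≠ 2 → (q : ZMod (2 ^ (m + 1))) ^ padicValNat q E = 1) :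
    2 ^ ((m + 1) * (2 ^ m * r - 1)) < w := by
  have : Fact (Nat.Prime 2) := ⟨Nat.prime_two⟩
  generalize hN : 2 ^ m * r = n at *
  have hval : ∀ t : ℕ, 2 ^ t ∣ y → 2 ^ t ∣ z →
      t * n ≤ padicValNat 2 (y ^ n + z ^ n) := by
    intro t hty htz
    have hne : y ^ n + z ^ n ≠ 0 := by positivity
    rw [← padicValNat_dvd_iff_le hne, pow_mul]
    exact dvd_add (pow_dvd_pow_of_dvd hty n) (pow_dvd_pow_of_dvd htz n)
  have ha := hval m (half_dvd h1) (half_dvd h2)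
  rw [hE] at hsum
  -- first pass
  have hF1 : m * n - m ≤ padicValNat 2 F := by omega
  have hmn : m * 4 ≤ m * n := Nat.mul_le_mul_left m hn
  have hmn2 : m + 2 ≤ m * n - m := by
    rcases Nat.lt_or_ge m 2 with hm2 | hm2
    · have hm1 : m = 1 := by omega
      subst hm1
      omega
    · omega
  have hFd : 2 ^ (m + 2) ∣ F := by
    rw [padicValNat_dvd_iff_le hF0.ne']
    omega
  have hEd : 2 ∣ E := by
    have h3 : 2 ^ 1 ∣ E := by
      rw [padicValNat_dvd_iff_le hE0.ne']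
      omega
    simpa using h3
  obtain ⟨e, rfl⟩ := hEd
  have he0 : 0 < e := by omega
  have heodd : ¬ 2 ∣ e := by
    intro hd
    have h3 : 2 ^ 2 ∣ 2 * e := by
      rw [pow_two]
      exact Nat.mul_dvd_mul_left 2 hd
    rw [padicValNat_dvd_iff_le hE0.ne', hE] at h3
    omega
  obtain ⟨f, rfl⟩ := hFd
  have he1 : (e : ZMod (2 ^ (m + 1))) = 1 := by
    refine mod_one (m := m) he0 heodd fun q hq hq2 => ?_
    have h3 := hbad q hq hq2
    have : Fact q.Prime := ⟨hq⟩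
    rw [padicValNat.mul two_ne_zero he0.ne'] at h3
    have h4 : padicValNat q 2 = 0 := by
      refine padicValNat.eq_zero_of_not_dvd fun h5 => ?_
      exact hq2 ((Nat.prime_dvd_prime_iff_eq hq Nat.prime_two).mp h5)
    rw [h4, zero_add] at h3
    exact h3
  have hw1 : (w : ZMod (2 ^ (m + 1))) = 1 := by
    have h3 : w = e + 2 ^ (m + 1) * f := by
      have h4 : 2 * e + 2 ^ (m + 2) * f = 2 * (e + 2 ^ (m + 1) * f) := by ring
      omega
    rw [h3, Nat.cast_add, he1, Nat.cast_mul]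
    have h4 : ((2 ^ (m + 1) : ℕ) : ZMod (2 ^ (m + 1))) = 0 := ZMod.natCast_self _
    rw [h4, zero_mul, add_zero]
  have hyd : 2 ^ (m + 1) ∣ y := by
    rw [← ZMod.natCast_eq_zero_iff]
    linear_combination hw1 - h1.1
  have hzd : 2 ^ (m + 1) ∣ z := by
    rw [← ZMod.natCast_eq_zero_iff]
    linear_combination hw1 - h2.1
  have hb := hval (m + 1) hyd hzd
  -- second pass
  have hexp : (m + 1) * n = (m + 1) * (n - 1) + (m + 1) := by
    have : n = (n - 1) + 1 := by omega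
    conv_lhs => rw [this]
    ring
  have hF2 : (m + 1) * (n - 1) + 1 ≤ padicValNat 2 (2 ^ (m + 2) * f) := by omega
  have hF3 : 2 ^ ((m + 1) * (n - 1) + 1) ∣ 2 ^ (m + 2) * f := by
    rw [padicValNat_dvd_iff_le hF0.ne']
    exact hF2
  have hF4 := Nat.le_of_dvd hF0 hF3
  rw [pow_succ] at hF4
  omega

/-- The case where `x` is odd and `y`, `z` are even. -/
private theorem odd_case {m r x y z w : ℕ} (hm : 1 ≤ m) (hr : Odd r)
    (hrq : ∀ q : ℕ, q.Prime → q ∣ r → (q : ZMod (2 ^ (m + 1))) ^ padicValNat q r = 1)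
    (hn : 4 ≤ 2 ^ m * r)
    (hx : 0 < x) (hy : 0 < y) (hz : 0 < z)
    (hcop : ∀ p, p.Prime → p ∣ x → p ∣ y → p ∣ z → p ∣ w → False)
    (h : x ^ (2 ^ m * r) + y ^ (2 ^ m * r) + z ^ (2 ^ m * r) = w ^ (2 ^ m * r))
    (hxo : ¬ 2 ∣ x) (hye : 2 ∣ y) (hze : 2 ∣ z) (hwo : ¬ 2 ∣ w) :
    2 ^ ((m + 1) * (2 ^ m * r - 1)) < w := by
  have : Fact (Nat.Prime 2) := ⟨Nat.prime_two⟩
  have hn0 : 2 ^ m * r ≠ 0 := by omega
  have hw0 : 0 < w := by
    rcases Nat.eq_zero_or_pos w with rfl | h'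
    · exact absurd (dvd_zero 2) hwo
    · exact h'
  have px : 0 < x ^ (2 ^ m * r) := pow_pos hx _
  have py : 0 < y ^ (2 ^ m * r) := pow_pos hy _
  have pz : 0 < z ^ (2 ^ m * r) := pow_pos hz _
  have hxw : x < w := lt_of_pow_lt_pow_left₀ (2 ^ m * r) (Nat.zero_le _) (by omega)
  have hyw : y < w := lt_of_pow_lt_pow_left₀ (2 ^ m * r) (Nat.zero_le _) (by omega)
  have hzw : z < w := lt_of_pow_lt_pow_left₀ (2 ^ m * r) (Nat.zero_le _) (by omega)
  have h1 := dvd_of_two hm hr hrq hx hy hz hyw hcop (by omega) hwo hye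
  have h2 := dvd_of_two hm hr hrq hx hz hy hzw (fun p hp a b c d => hcop p hp a c b d)
    (by omega) hwo hze
  have h3 : w ^ (2 ^ m * r) - x ^ (2 ^ m * r) = y ^ (2 ^ m * r) + z ^ (2 ^ m * r) := by omega
  have hvf := fun q hq hq2 => val_factor (q := q) hm hr hrq hy hx hz hxw
    (fun p hp a b c d => hcop p hp b a c d) h3 hq hq2
  have hev : Even (2 ^ m * r) := by
    refine Even.mul_right ?_ r
    exact (Nat.even_pow.mpr ⟨even_two, by omega⟩)
  have h4 := padicValNat.pow_two_sub_pow hxw (by omega) hwo hn0 hev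
  have h5 : padicValNat 2 (2 ^ m * r) = m := by
    rw [padicValNat.mul (by positivity) hr.pos.ne', padicValNat.prime_pow,
      padicValNat.eq_zero_of_not_dvd (by
        intro h'
        exact (Nat.not_even_iff_odd.mpr hr) (even_iff_two_dvd.mpr h')), add_zero]
  rw [h3, h5] at h4
  have hcase : padicValNat 2 (w + x) = 1 ∨ padicValNat 2 (w - x) = 1 := by
    have hval1 : ∀ t : ℕ, t % 4 = 2 → padicValNat 2 t = 1 := by
      intro t ht
      have ht0 : t ≠ 0 := by omega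
      have ha : 1 ≤ padicValNat 2 t := by
        rw [← padicValNat_dvd_iff_le ht0]
        omega
      have hb : ¬ 2 ≤ padicValNat 2 t := by
        rw [← padicValNat_dvd_iff_le ht0]
        omega
      omega
    rcases (by omega : (w + x) % 4 = 2 ∨ (w - x) % 4 = 2) with h' | h'
    · exact Or.inl (hval1 _ h')
    · exact Or.inr (hval1 _ h')
  rcases hcase with hc | hc
  · exact core (E := w + x) (F := w - x) hm hn hy hz h1 h2 (by omega) (by omega)
      (by omega) hc h4 fun q hq hq2 => (hvf q hq hq2).2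
  · exact core (E := w - x) (F := w + x) hm hn hy hz h1 h2 (by omega) (by omega)
      (by omega) hc (by omega) fun q hq hq2 => (hvf q hq hq2).1

private theorem pow_mod_eight (a n : ℕ) (hn : 4 ≤ n) (he : Even n) :
    a ^ n % 8 = a % 2 := by
  obtain ⟨k, rfl⟩ := he
  have e : a ^ (k + k) = (a * a) ^ k := by rw [pow_add, mul_pow]
  rcases Nat.mod_two_eq_zero_or_one a with h | h
  · obtain ⟨b, rfl⟩ : ∃ b, a = 2 * b := ⟨a / 2, by omega⟩
    have h1 : (8 : ℕ) ∣ (2 * b) ^ (k + k) := by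
      have h2 : (2 * b) ^ (k + k) = 2 ^ 3 * (2 ^ (k + k - 3) * b ^ (k + k)) := by
        rw [mul_pow, ← mul_assoc, ← pow_add]
        congr 2
        omega
      rw [h2]
      exact Dvd.intro _ rfl
    omega
  · have h1 : a * a % 8 = 1 := by
      have h2 : a % 8 = 1 ∨ a % 8 = 3 ∨ a % 8 = 5 ∨ a % 8 = 7 := by omega
      rcases h2 with h2 | h2 | h2 | h2 <;> rw [Nat.mul_mod, h2]
    rw [e, Nat.pow_mod, h1, one_pow, h, Nat.mod_eq_of_lt (by norm_num)]

/-- Primitive solutions. -/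
private theorem primitive {m r x y z w : ℕ} (hm : 1 ≤ m) (hr : Odd r)
    (hrq : ∀ q : ℕ, q.Prime → q ∣ r → (q : ZMod (2 ^ (m + 1))) ^ padicValNat q r = 1)
    (hn : 4 ≤ 2 ^ m * r)
    (hx : 0 < x) (hy : 0 < y) (hz : 0 < z)
    (hcop : ∀ p, p.Prime → p ∣ x → p ∣ y → p ∣ z → p ∣ w → False)
    (h : x ^ (2 ^ m * r) + y ^ (2 ^ m * r) + z ^ (2 ^ m * r) = w ^ (2 ^ m * r)) :
    2 ^ ((m + 1) * (2 ^ m * r - 1)) < w := by
  have hev : Even (2 ^ m * r) := by
    refine Even.mul_right ?_ r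
    exact (Nat.even_pow.mpr ⟨even_two, by omega⟩)
  have ex := pow_mod_eight x _ hn hev
  have ey := pow_mod_eight y _ hn hev
  have ez := pow_mod_eight z _ hn hev
  have ew := pow_mod_eight w _ hn hev
  have hc2 := hcop 2 Nat.prime_two
  have h8 : (x % 2 + y % 2 + z % 2) % 8 = w % 2 := by
    rw [← ex, ← ey, ← ez, ← ew, ← h]
    omega
  have hne : ¬ (2 ∣ x ∧ 2 ∣ y ∧ 2 ∣ z ∧ 2 ∣ w) := fun hh => hc2 hh.1 hh.2.1 hh.2.2.1 hh.2.2.2
  rcases (by omega : (¬ 2 ∣ x ∧ 2 ∣ y ∧ 2 ∣ z ∧ ¬ 2 ∣ w) ∨ (2 ∣ x ∧ ¬ 2 ∣ y ∧ 2 ∣ z ∧ ¬ 2 ∣ w) ∨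
    (2 ∣ x ∧ 2 ∣ y ∧ ¬ 2 ∣ z ∧ ¬ 2 ∣ w)) with h' | h' | h'
  · exact odd_case hm hr hrq hn hx hy hz hcop h h'.1 h'.2.1 h'.2.2.1 h'.2.2.2
  · exact odd_case hm hr hrq hn hy hx hz (fun p hp a b c d => hcop p hp b a c d) (by omega)
      h'.2.1 h'.1 h'.2.2.1 h'.2.2.2
  · exact odd_case hm hr hrq hn hz hx hy (fun p hp a b c d => hcop p hp b c a d) (by omega)
      h'.2.2.1 h'.1 h'.2.1 h'.2.2.2

/-- Let `m ≥ 1`, let `r` be odd such that `q ^ v ≡ 1 (mod 2 ^ (m + 1))` for every maximal prime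
power `q ^ v` dividing `r`, and let `n = 2 ^ m * r ≥ 4` (for example `n = 2 ^ m`, `m ≥ 2`). If
`x, y, z, w` are positive integers with `x ^ n + y ^ n + z ^ n = w ^ n`, then
`w > 2 ^ ((m + 1) * (n - 1))`. -/
theorem size (m r : ℕ) (hm : 1 ≤ m) (hr : Odd r)
    (hrq : ∀ q : ℕ, q.Prime → q ∣ r → q ^ padicValNat q r % 2 ^ (m + 1) = 1)
    (hn : 4 ≤ 2 ^ m * r)
    (x y z w : ℕ) (hx : 0 < x) (hy : 0 < y) (hz : 0 < z)
    (h : x ^ (2 ^ m * r) + y ^ (2 ^ m * r) + z ^ (2 ^ m * r) = w ^ (2 ^ m * r)) :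
    2 ^ ((m + 1) * (2 ^ m * r - 1)) < w := by
  have hrq' : ∀ q : ℕ, q.Prime → q ∣ r → (q : ZMod (2 ^ (m + 1))) ^ padicValNat q r = 1 := by
    intro q hq hqr
    have h6 : 1 < 2 ^ (m + 1) := Nat.one_lt_two_pow (Nat.succ_ne_zero m)
    have h2 : ((q ^ padicValNat q r : ℕ) : ZMod (2 ^ (m + 1))) =
        ((1 : ℕ) : ZMod (2 ^ (m + 1))) := by
      rw [ZMod.natCast_eq_natCast_iff]
      unfold Nat.ModEq
      rw [hrq q hq hqr, Nat.mod_eq_of_lt h6]
    rw [Nat.cast_pow, Nat.cast_one] at h2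
    exact h2
  induction w using Nat.strong_induction_on generalizing x y z with
  | _ w ih =>
    by_cases hcop : ∀ p, p.Prime → p ∣ x → p ∣ y → p ∣ z → p ∣ w → False
    · exact primitive hm hr hrq' hn hx hy hz hcop h
    · push Not at hcop
      obtain ⟨p, hp, ⟨x', rfl⟩, ⟨y', rfl⟩, ⟨z', rfl⟩, ⟨w', rfl⟩, -⟩ := hcop
      have hx' : 0 < x' := Nat.pos_of_mul_pos_left hx
      have hy' : 0 < y' := Nat.pos_of_mul_pos_left hy
      have hz' : 0 < z' := Nat.pos_of_mul_pos_left hz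
      have h1 : x' ^ (2 ^ m * r) + y' ^ (2 ^ m * r) + z' ^ (2 ^ m * r) = w' ^ (2 ^ m * r) := by
        rw [mul_pow, mul_pow, mul_pow, mul_pow, ← mul_add, ← mul_add] at h
        exact Nat.eq_of_mul_eq_mul_left (pow_pos hp.pos _) h
      have hw' : 0 < w' := by
        rcases Nat.eq_zero_or_pos w' with rfl | h'
        · rw [zero_pow (by omega)] at h1
          have := pow_pos hx' (2 ^ m * r)
          omega
        · exact h'
      have hlt : w' < p * w' := by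
        have := hp.one_lt
        nlinarith
      exact (ih w' hlt x' y' z' hx' hy' hz' h1).trans hlt

end Pool.Agent.Helper3.TT
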